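import Pool.Agent.H13.HS.WDefs
import Pool.Agent.H13.HS.WConv

set_option autoImplicit false

open MvPolynomial Pool.MP_c8f462_al.Width

namespace Pool.Agent.Results.MP_c8f462_al.TangentCone

/-- Let `Γ` be a numerical semigroup with minimal generators `g 0 < … < g e`, let `d` divide all
the differences `g i - g 0`, and let `k` be any field. Then the kernel of `k[x₀, …, x_e] → G_Γ` is
generated by at most `C((g e - g 0)/d + 1, 2)` elements, each of which is a monomial or a difference
of two monomials of the same degree. -/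
theorem result (k : Type) [Field k] (Γ : AddSubmonoid ℕ) (hfin : {n | n ∉ Γ}.Finite) (e : ℕ)
    (g : Fin (e + 1) → ℕ) (hmono : StrictMono g)
    (hgen : AddSubmonoid.closure (Set.range g) = Γ)
    (hmin : ∀ i, g i ∉ AddSubmonoid.closure (g '' {j | j ≠ i}))
    (d : ℕ) (hd : ∀ i, d ∣ g i - g 0) :
    ∃ s : Finset (MvPolynomial (Fin (e + 1)) k),
      s.card ≤ ((g (Fin.last e) - g 0) / d + 1).choose 2 ∧
      (∀ f ∈ s, ∃ u v : Fin (e + 1) →₀ ℕ, ∑ i, u i = ∑ i, v i ∧
        (f = monomial u 1 ∨ f = monomial u 1 - monomial v 1)) ∧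
      Ideal.span s = coneKernel k Γ g :=
  Pool.Agent.H13.HS.Gr.width k Γ hfin e g hmono hgen hmin d hd

end Pool.Agent.Results.MP_c8f462_al.TangentCone
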